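import Pool.Agent.Results.MP_f5a18c_al.EveryAlgebraicLattice

/-!
# Relative congruence lattices and automorphism groups are independent

There is one quasivariety `K` of algebras with one constant and four unary operations, axiomatised
by three quasi-identities, such that for every algebraic lattice `L` with at least two elements,
every group `G` and every action of `G` on `L` by automorphisms there is an algebra `A` in `K` with
`Con_K(A) ≅ L` and `Aut(A) ≅ G` and with the given action of `Aut(A)` on `Con_K(A)`.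

The elements of `A` are binary trees whose leaves are the compact elements of `L` and the elements
of `G`. All the relative congruences are determined by the compact elements in the class of the
constant. The fourth unary operation encodes, for each `a` in `G`, the images under `a` of a
well-order of `G` and of a well-order of the set of the compact elements.
-/

namespace Pool.Agent.Results.MP_f5a18c_al.IndependentAutomorphisms

open EveryAlgebraicLattice

universe u

/-- The automorphism group of an algebra. -/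
def Aut (S : Sig) (A : Type u) [Alg S A] : Subgroup (Equiv.Perm A) where
  carrier := {σ | ∀ (f : S.Op) (x : Fin (S.ar f) → A), σ (Alg.op f x) = Alg.op f (fun i => σ (x i))}
  one_mem' := fun _ _ => rfl
  mul_mem' := by
    intro a b ha hb f x
    rw [Equiv.Perm.mul_apply, hb, ha]
    rfl
  inv_mem' := by
    intro a ha f x
    rw [Equiv.Perm.inv_eq_iff_eq, ha]
    congr 1
    funext i
    simp

/-! ### The signature and the quasivariety -/

/-- Five operation symbols. -/
inductive Sym5
  | zero | lam | p | r | f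
  deriving DecidableEq

instance : Finite Sym5 := by
  refine Finite.of_surjective (fun i : Fin 5 => (![.zero, .lam, .p, .r, .f] : Fin 5 → Sym5) i) ?_
  intro s
  cases s
  · exact ⟨0, rfl⟩
  · exact ⟨1, rfl⟩
  · exact ⟨2, rfl⟩
  · exact ⟨3, rfl⟩
  · exact ⟨4, rfl⟩

/-- One constant and four unary operations. -/
def sig5 : Sig where
  Op := Sym5
  ar s := match s with
    | .zero => 0
    | .lam => 1
    | .p => 1
    | .r => 1
    | .f => 1

/-- The variable. -/
def x5 : Tm sig5 := .var 0

/-- The constant. -/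
def z5 : Tm sig5 := .app Sym5.zero (fun i => i.elim0)

/-- `lam x` -/
def tl5 : Tm sig5 := .app Sym5.lam (fun _ => x5)
/-- `p x` -/
def tp5 : Tm sig5 := .app Sym5.p (fun _ => x5)
/-- `r x` -/
def tr5 : Tm sig5 := .app Sym5.r (fun _ => x5)

/-- `lam x = 0` implies `x = 0`. -/
def a1 : QId sig5 := ⟨[(tl5, z5)], x5, z5⟩
/-- `p x = 0` and `r x = 0` imply `x = 0`. -/
def a2 : QId sig5 := ⟨[(tp5, z5), (tr5, z5)], x5, z5⟩
/-- `p x = r x` implies `p x = 0`. -/
def a3 : QId sig5 := ⟨[(tp5, tr5)], tp5, z5⟩

/-- The axioms of the quasivariety. -/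
def axioms5 : Set (QId sig5) := {a1, a2, a3}

/-! ### The algebra -/

section Action

variable {L : Type u} [CompleteLattice L]

theorem compact_map (e : L ≃o L) {c : L} (hc : IsCompactElement c) : IsCompactElement (e c) := by
  rw [CompleteLattice.isCompactElement_iff_le_of_directed_sSup_le] at hc ⊢
  intro s hne hdir hle
  have h1 : c ≤ sSup (e.symm '' s) := by
    have h0 := e.symm.monotone hle
    rw [e.symm_apply_apply] at h0
    rw [sSup_image, ← OrderIso.map_sSup]
    exact h0
  have hdir' : DirectedOn (· ≤ ·) (e.symm '' s) := by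
    rintro _ ⟨x, hx, rfl⟩ _ ⟨y, hy, rfl⟩
    obtain ⟨z, hz, h2, h3⟩ := hdir x hx y hy
    exact ⟨e.symm z, ⟨z, hz, rfl⟩, e.symm.monotone h2, e.symm.monotone h3⟩
  obtain ⟨_, ⟨x, hx, rfl⟩, h2⟩ := hc _ (hne.image _) hdir' h1
  exact ⟨x, hx, by
    have := e.monotone h2
    simpa using this⟩

end Action

section Construction

/-- The leaves: compact elements and vertices. -/
abbrev B (L : Type u) [CompleteLattice L] (G : Type u) : Type u := Cpt L ⊕ G

/-- Binary trees. -/
inductive Tr (L : Type u) [CompleteLattice L] (G : Type u) : Type u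
  | base : B L G → Tr L G
  | pair : Tr L G → Tr L G → Tr L G

/-- The data: an action of `G` on `L` and a compact element. -/
structure Dat (L : Type u) [CompleteLattice L] (G : Type u) [Group G] where
  /-- the action -/
  ρ : G →* (L ≃o L)
  /-- the compact element -/
  c₀ : Cpt L

variable {L : Type u} [CompleteLattice L] {G : Type u} [Group G] (D : Dat L G)

/-- The action on the compact elements. -/
def ca (g : G) (c : Cpt L) : Cpt L := ⟨D.ρ g c.1, compact_map _ c.2⟩

theorem ca_mul (g h : G) (c : Cpt L) : ca D (g * h) c = ca D g (ca D h c) := by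
  apply Subtype.ext
  simp [ca]

theorem ca_one (c : Cpt L) : ca D 1 c = c := by
  apply Subtype.ext
  simp [ca]

/-- The label of a leaf. -/
def ell : B L G → Cpt L
  | .inl c => c
  | .inr a => ca D a D.c₀

/-- The join of the labels of the leaves. -/
def Tr.lab : Tr L G → L
  | .base b => (ell D b).1
  | .pair s t => s.lab ⊔ t.lab

omit [Group G] in
/-- No subtree has two equal sons. -/
def Tr.Good : Tr L G → Prop
  | .base _ => True
  | .pair s t => s.Good ∧ t.Good ∧ s ≠ t

theorem Tr.lab_compact (t : Tr L G) : IsCompactElement (t.lab D) := by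
  induction t with
  | base c => exact (ell D c).2
  | pair s t hs ht => exact compact_sup hs ht

/-- The universe of the algebra. -/
structure Al5 (D : Dat L G) : Type u where
  /-- the tree -/
  t : Tr L G
  /-- it is admissible -/
  h : t.Good

variable {D}

theorem Al5.ext' {s t : Al5 D} (h : s.t = t.t) : s = t := by
  cases s
  cases t
  cases h
  rfl

/-- The label of an element. -/
def lb (t : Al5 D) : L := t.t.lab D

/-- Leaves. -/
def bs (b : B L G) : Al5 D := ⟨.base b, trivial⟩

/-- The zero element. -/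
def zr : Al5 D := bs (.inl ⟨⊥, compact_bot⟩)

/-- The unary operation giving the canonical leaf with the same label. -/
def lm (t : Al5 D) : Al5 D := bs (.inl ⟨lb t, t.t.lab_compact D⟩)

/-- First son. -/
def pp (t : Al5 D) : Al5 D :=
  match t with
  | ⟨.base c, h⟩ => ⟨.base c, h⟩
  | ⟨.pair s _, h⟩ => ⟨s, h.1⟩

/-- Second son. -/
def rr (t : Al5 D) : Al5 D :=
  match t with
  | ⟨.base _, _⟩ => zr
  | ⟨.pair _ s, h⟩ => ⟨s, h.2.1⟩

variable (D) in
/-- The ternary relation on the leaves: the well-orders moved by `a`. -/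
def Rel (a : G) : B L G → B L G → Prop
  | .inl c, .inl d => WellOrderingRel (ca D a⁻¹ c) (ca D a⁻¹ d)
  | .inr x, .inr y => WellOrderingRel (a⁻¹ * x) (a⁻¹ * y)
  | _, _ => False

variable (D) in
/-- The trees that encode the ternary relation. -/
def Mark (t : Tr L G) : Prop :=
  ∃ (a : G) (b b' : B L G), t = .pair (.base (.inr a)) (.pair (.base b) (.base b')) ∧ Rel D a b b'

open Classical in
/-- The fourth unary operation. -/
noncomputable def ff (t : Al5 D) : Al5 D := if Mark D t.t then zr else t

noncomputable instance : Alg sig5 (Al5 D) where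
  op f := match f with
    | .zero => fun _ => zr
    | .lam => fun x : Fin 1 → Al5 D => lm (x 0)
    | .p => fun x : Fin 1 → Al5 D => pp (x 0)
    | .r => fun x : Fin 1 → Al5 D => rr (x 0)
    | .f => fun x : Fin 1 → Al5 D => ff (x 0)

/-- The pair of two distinct elements. -/
def pr (s t : Al5 D) (h : s ≠ t) : Al5 D :=
  ⟨.pair s.t t.t, s.h, t.h, fun e => h (Al5.ext' e)⟩

@[simp] theorem lb_bs (b : B L G) : lb (bs b : Al5 D) = (ell D b).1 := rfl
@[simp] theorem lb_zr : lb (zr : Al5 D) = ⊥ := rfl
@[simp] theorem lb_lm (t : Al5 D) : lb (lm t) = lb t := rfl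
@[simp] theorem lb_pr (s t : Al5 D) (h : s ≠ t) : lb (pr s t h) = lb s ⊔ lb t := rfl
@[simp] theorem pp_pr (s t : Al5 D) (h : s ≠ t) : pp (pr s t h) = s := rfl
@[simp] theorem rr_pr (s t : Al5 D) (h : s ≠ t) : rr (pr s t h) = t := rfl
@[simp] theorem pp_zr : pp (zr : Al5 D) = zr := rfl
@[simp] theorem rr_zr : rr (zr : Al5 D) = zr := rfl
@[simp] theorem pp_bs (b : B L G) : pp (bs b : Al5 D) = bs b := rfl

theorem lb_pp_le (t : Al5 D) : lb (pp t) ≤ lb t := by
  rcases t with ⟨t, ht⟩
  cases t with
  | base c => exact le_rfl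
  | pair s t => exact le_sup_left (a := s.lab D)

theorem lb_rr_le (t : Al5 D) : lb (rr t) ≤ lb t := by
  rcases t with ⟨t, ht⟩
  cases t with
  | base c => exact bot_le
  | pair s t => exact le_sup_right (a := s.lab D)

theorem lb_le (t : Al5 D) : lb t ≤ lb (pp t) ⊔ lb (rr t) := by
  rcases t with ⟨t, ht⟩
  cases t with
  | base c => exact le_sup_left (a := lb (bs c))
  | pair s t => exact le_rfl

theorem eq_zr_of_pp_eq_rr (t : Al5 D) (h : pp t = rr t) : pp t = zr := by
  rcases t with ⟨t, ht⟩
  cases t with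
  | base c => exact h
  | pair s t => exact absurd (congrArg Al5.t h) ht.2.2

theorem lb_ff_le (t : Al5 D) : lb (ff t) ≤ lb t := by
  unfold ff
  split_ifs
  · exact bot_le
  · exact le_rfl

/-- The congruence belonging to the element `x` of `L`. -/
def cg (x : L) : Cong sig5 (Al5 D) where
  r s t := s = t ∨ (lb s ≤ x ∧ lb t ≤ x)
  equiv := by
    refine ⟨fun s => Or.inl rfl, ?_, ?_⟩
    · rintro s t (h | h)
      · exact Or.inl h.symm
      · exact Or.inr h.symm
    · rintro s t w (h | h) (h' | h')
      · exact Or.inl (h.trans h')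
      · exact Or.inr (h ▸ h')
      · exact Or.inr (h' ▸ h)
      · exact Or.inr ⟨h.1, h'.2⟩
  compat := by
    intro f a b hab
    cases f with
    | zero => exact Or.inl rfl
    | lam =>
      change Fin 1 → Al5 D at a
      change Fin 1 → Al5 D at b
      rcases hab (0 : Fin 1) with h | h
      · exact Or.inl (congrArg lm h)
      · exact Or.inr h
    | p =>
      change Fin 1 → Al5 D at a
      change Fin 1 → Al5 D at b
      rcases hab (0 : Fin 1) with h | h
      · exact Or.inl (congrArg pp h)
      · exact Or.inr ⟨(lb_pp_le _).trans h.1, (lb_pp_le _).trans h.2⟩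
    | r =>
      change Fin 1 → Al5 D at a
      change Fin 1 → Al5 D at b
      rcases hab (0 : Fin 1) with h | h
      · exact Or.inl (congrArg rr h)
      · exact Or.inr ⟨(lb_rr_le _).trans h.1, (lb_rr_le _).trans h.2⟩
    | f =>
      change Fin 1 → Al5 D at a
      change Fin 1 → Al5 D at b
      rcases hab (0 : Fin 1) with h | h
      · exact Or.inl (congrArg ff h)
      · exact Or.inr ⟨(lb_ff_le _).trans h.1, (lb_ff_le _).trans h.2⟩

theorem cg_zr (x : L) (t : Al5 D) : (cg x).r t zr ↔ lb t ≤ x ∨ t = zr := by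
  constructor
  · rintro (h | h)
    · exact Or.inr h
    · exact Or.inl h.1
  · rintro (h | h)
    · exact Or.inr ⟨h, bot_le⟩
    · exact Or.inl h

theorem lb_le_of_cg_zr {x : L} {t : Al5 D} (h : (cg x).r t zr) : lb t ≤ x := by
  rcases (cg_zr x t).1 h with h | h
  · exact h
  · rw [h]; exact bot_le

theorem cg_zr_of_lb_le {x : L} {t : Al5 D} (h : lb t ≤ x) : (cg x).r t zr :=
  (cg_zr x t).2 (Or.inl h)

theorem inQV_cg (x : L) : InQV axioms5 (cg x : Cong sig5 (Al5 D)).Quo := by
  intro q hq
  rw [Cong.holds_iff]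
  intro v hv
  rcases hq with rfl | rfl | rfl
  · have h := hv (tl5, z5) (by simp [a1])
    change (cg x).r (v 0) zr
    exact cg_zr_of_lb_le (lb_le_of_cg_zr (t := lm (v 0)) h)
  · have h1 := hv (tp5, z5) (by simp [a2])
    have h2 := hv (tr5, z5) (by simp [a2])
    change (cg x).r (v 0) zr
    exact cg_zr_of_lb_le ((lb_le (v 0)).trans
      (sup_le (lb_le_of_cg_zr (t := pp (v 0)) h1) (lb_le_of_cg_zr (t := rr (v 0)) h2)))
  · have h := hv (tp5, tr5) (by simp [a3])
    change (cg x).r (pp (v 0)) zr
    rcases h with h | h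
    · exact Or.inl (eq_zr_of_pp_eq_rr _ h)
    · exact cg_zr_of_lb_le h.1

/-- The relations in a quotient of the algebra that satisfies the axioms. -/
theorem quo_rules (φ : Cong sig5 (Al5 D)) (h : InQV axioms5 φ.Quo) :
    (∀ t, φ.r (lm t) zr → φ.r t zr) ∧ (∀ t, φ.r (pp t) zr → φ.r (rr t) zr → φ.r t zr) ∧
      (∀ t, φ.r (pp t) (rr t) → φ.r (pp t) zr) := by
  refine ⟨fun t ht => ?_, fun t h1 h2 => ?_, fun t ht => ?_⟩
  · have := (φ.holds_iff a1).1 (h a1 (by simp [axioms5])) (fun _ => t) (by
      intro e he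
      simp only [a1, List.mem_singleton] at he
      subst he
      exact ht)
    exact this
  · have := (φ.holds_iff a2).1 (h a2 (by simp [axioms5])) (fun _ => t) (by
      intro e he
      simp only [a2, List.mem_cons, List.not_mem_nil, or_false] at he
      rcases he with rfl | rfl
      · exact h1
      · exact h2)
    exact this
  · have := (φ.holds_iff a3).1 (h a3 (by simp [axioms5])) (fun _ => t) (by
      intro e he
      simp only [a3, List.mem_singleton] at he
      subst he
      exact ht)
    exact this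

theorem cong_lm (φ : Cong sig5 (Al5 D)) {s t : Al5 D} (h : φ.r s t) :
    φ.r (lm s) (lm t) :=
  φ.compat Sym5.lam (fun _ => s) (fun _ => t) (fun _ => h)

theorem cong_rr (φ : Cong sig5 (Al5 D)) {s t : Al5 D} (h : φ.r s t) :
    φ.r (rr s) (rr t) :=
  φ.compat Sym5.r (fun _ => s) (fun _ => t) (fun _ => h)

/-- Every relative congruence is one of the congruences `cg x`. -/
theorem exists_cg [IsCompactlyGenerated L] (φ : Cong sig5 (Al5 D))
    (h : InQV axioms5 φ.Quo) : ∃ x : L, ∀ s t, (cg x).r s t ↔ φ.r s t := by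
  obtain ⟨h1, h2, h3⟩ := quo_rules φ h
  let I : Set L := {c | ∃ hc : IsCompactElement c, φ.r (bs (.inl ⟨c, hc⟩)) zr}
  have hlb : ∀ t : Al5 D, φ.r t zr ↔ lb t ∈ I := by
    intro t
    constructor
    · intro ht
      exact ⟨t.t.lab_compact D, φ.equiv.trans (cong_lm φ ht) (φ.equiv.refl _)⟩
    · rintro ⟨hc, ht⟩
      exact h1 t ht
  have hbot : (⊥ : L) ∈ I := ⟨compact_bot, φ.equiv.refl _⟩
  have hdown : ∀ c d : L, c ∈ I → IsCompactElement d → d ≤ c → d ∈ I := by
    intro c d hc hd hdc
    by_cases hne : d = c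
    · rw [hne]; exact hc
    have hne' : (bs (.inl ⟨c, hc.choose⟩) : Al5 D) ≠ bs (.inl ⟨d, hd⟩) := by
      intro e
      have := congrArg lb e
      exact hne this.symm
    have ht : φ.r (pr _ _ hne') zr := by
      rw [hlb, lb_pr, lb_bs, lb_bs]
      change c ⊔ d ∈ I
      rw [sup_eq_left.2 hdc]
      exact hc
    have := cong_rr φ ht
    rw [rr_pr, rr_zr] at this
    exact ⟨hd, this⟩
  have hsup : ∀ c d : L, c ∈ I → d ∈ I → c ⊔ d ∈ I := by
    intro c d hc hd
    by_cases hne : c = d
    · rw [hne, sup_idem]; exact hd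
    have hne' : (bs (.inl ⟨c, hc.choose⟩) : Al5 D) ≠ bs (.inl ⟨d, hd.choose⟩) := by
      intro e
      exact hne (congrArg lb e)
    have ht : φ.r (pr _ _ hne') zr := by
      apply h2
      · rw [pp_pr]; exact hc.choose_spec
      · rw [rr_pr]; exact hd.choose_spec
    rw [hlb] at ht
    exact ht
  have hmem : ∀ c : L, IsCompactElement c → (c ≤ sSup I ↔ c ∈ I) := by
    intro c hc
    constructor
    · intro hle
      have hdir : DirectedOn (· ≤ ·) I := fun a ha b hb =>
        ⟨a ⊔ b, hsup a b ha hb, le_sup_left, le_sup_right⟩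
      obtain ⟨d, hd, hcd⟩ := (CompleteLattice.isCompactElement_iff_le_of_directed_sSup_le L c).1 hc
        I ⟨⊥, hbot⟩ hdir hle
      exact hdown d c hd hc hcd
    · intro h
      exact le_sSup h
  have hlab : ∀ t : Al5 D, lb t ≤ sSup I ↔ φ.r t zr := fun t => by
    rw [hlb]; exact hmem (lb t) (t.t.lab_compact D)
  refine ⟨sSup I, fun s t => ⟨?_, ?_⟩⟩
  · rintro (h | h)
    · rw [h]; exact φ.equiv.refl _
    · exact φ.equiv.trans ((hlab s).1 h.1) (φ.equiv.symm ((hlab t).1 h.2))
  · intro hst
    by_cases hne : s = t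
    · exact Or.inl hne
    have hs : φ.r s zr := by
      have h4 := h3 (pr s t hne)
      rw [pp_pr, rr_pr] at h4
      exact h4 hst
    have ht : φ.r t zr := φ.equiv.trans (φ.equiv.symm hst) hs
    exact Or.inr ⟨(hlab s).2 hs, (hlab t).2 ht⟩

theorem cg_le_iff [IsCompactlyGenerated L] (x y : L) :
    x ≤ y ↔ ∀ s t : Al5 D, (cg x).r s t → (cg y).r s t := by
  constructor
  · rintro hxy s t (h | h)
    · exact Or.inl h
    · exact Or.inr ⟨h.1.trans hxy, h.2.trans hxy⟩
  · intro h
    rw [le_iff_compact_le_imp]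
    intro c hc hcx
    exact lb_le_of_cg_zr (t := bs (.inl ⟨c, hc⟩)) (h _ _ (cg_zr_of_lb_le hcx))

theorem inQV_alg (hc₀ : D.c₀.1 ≠ ⊥) : InQV axioms5 (Al5 D) := by
  intro q hq v hv
  have hz : ∀ t : Al5 D, lb t = ⊥ → t = zr := by
    rintro ⟨t, ht⟩
    induction t with
    | base c =>
      intro h
      rcases c with c | x
      · have hc : c = ⟨⊥, compact_bot⟩ := Subtype.ext h
        apply Al5.ext'
        change Tr.base (Sum.inl c) = Tr.base (Sum.inl ⟨⊥, compact_bot⟩)
        rw [hc]
      · exfalso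
        apply hc₀
        have h1 : D.ρ x D.c₀.1 = ⊥ := h
        rwa [map_eq_bot_iff] at h1
    | pair a b iha ihb =>
      intro h
      have h' : a.lab D ⊔ b.lab D = ⊥ := h
      rw [sup_eq_bot_iff] at h'
      have e1 := iha ht.1 h'.1
      have e2 := ihb ht.2.1 h'.2
      exact absurd ((congrArg Al5.t e1).trans (congrArg Al5.t e2).symm) ht.2.2
  rcases hq with rfl | rfl | rfl
  · have h := hv (tl5, z5) (by simp [a1])
    change lm (v 0) = zr at h
    exact hz _ (congrArg lb h)
  · have h1 := hv (tp5, z5) (by simp [a2])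
    have h2 := hv (tr5, z5) (by simp [a2])
    change pp (v 0) = zr at h1
    change rr (v 0) = zr at h2
    apply hz
    have := lb_le (v 0)
    rw [h1, h2, lb_zr, sup_idem] at this
    exact le_bot_iff.1 this
  · have h := hv (tp5, tr5) (by simp [a3])
    exact eq_zr_of_pp_eq_rr _ h

end Construction

/-! ### The automorphisms -/

section Automorphisms

variable {L : Type u} [CompleteLattice L] {G : Type u} [Group G] {D : Dat L G}

variable (D) in
/-- The action of `G` on the leaves. -/
def actB (g : G) : B L G → B L G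
  | .inl c => .inl (ca D g c)
  | .inr a => .inr (g * a)

variable (D) in
/-- The action of `G` on the trees. -/
def actT (g : G) : Tr L G → Tr L G
  | .base b => .base (actB D g b)
  | .pair s t => .pair (actT g s) (actT g t)

theorem actB_mul (g h : G) (b : B L G) : actB D (g * h) b = actB D g (actB D h b) := by
  rcases b with c | a
  · simp [actB, ca_mul]
  · simp [actB, mul_assoc]

theorem actB_one (b : B L G) : actB D 1 b = b := by
  rcases b with c | a
  · simp [actB, ca_one]
  · simp [actB]

theorem actT_mul (g h : G) (t : Tr L G) : actT D (g * h) t = actT D g (actT D h t) := by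
  induction t with
  | base b => simp [actT, actB_mul]
  | pair s t hs ht => simp [actT, hs, ht]

theorem actT_one (t : Tr L G) : actT D 1 t = t := by
  induction t with
  | base b => simp [actT, actB_one]
  | pair s t hs ht => simp [actT, hs, ht]

theorem actT_inj (g : G) {s t : Tr L G} (h : actT D g s = actT D g t) : s = t := by
  have h1 := congrArg (actT D g⁻¹) h
  rwa [← actT_mul, ← actT_mul, inv_mul_cancel, actT_one, actT_one] at h1

theorem good_actT (g : G) (t : Tr L G) (h : t.Good) : (actT D g t).Good := by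
  induction t with
  | base b => trivial
  | pair s t hs ht => exact ⟨hs h.1, ht h.2.1, fun e => h.2.2 (actT_inj g e)⟩

theorem ell_actB (g : G) (b : B L G) : ell D (actB D g b) = ca D g (ell D b) := by
  rcases b with c | a
  · rfl
  · simp [ell, actB, ca_mul]

theorem lab_actT (g : G) (t : Tr L G) : (actT D g t).lab D = D.ρ g (t.lab D) := by
  induction t with
  | base b =>
    simp only [actT, Tr.lab, ell_actB]
    rfl
  | pair s t hs ht => simp only [actT, Tr.lab, hs, ht, map_sup]

/-- The action of `G` on the algebra. -/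
def act (g : G) (t : Al5 D) : Al5 D := ⟨actT D g t.t, good_actT g _ t.h⟩

theorem lb_act (g : G) (t : Al5 D) : lb (act g t) = D.ρ g (lb t) := lab_actT g t.t

theorem act_bs (g : G) (b : B L G) : act g (bs b : Al5 D) = bs (actB D g b) := rfl

theorem act_zr (g : G) : act g (zr : Al5 D) = zr := by
  apply Al5.ext'
  change Tr.base (Sum.inl (ca D g ⟨⊥, compact_bot⟩)) = Tr.base (Sum.inl ⟨⊥, compact_bot⟩)
  congr 2
  apply Subtype.ext
  exact map_bot (D.ρ g)

theorem act_lm (g : G) (t : Al5 D) : act g (lm t) = lm (act g t) := by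
  apply Al5.ext'
  change Tr.base (Sum.inl (ca D g ⟨lb t, _⟩)) = Tr.base (Sum.inl ⟨lb (act g t), _⟩)
  congr 2
  apply Subtype.ext
  exact (lb_act g t).symm

theorem act_pp (g : G) (t : Al5 D) : act g (pp t) = pp (act g t) := by
  rcases t with ⟨t, ht⟩
  cases t <;> rfl

theorem act_rr (g : G) (t : Al5 D) : act g (rr t) = rr (act g t) := by
  rcases t with ⟨t, ht⟩
  cases t with
  | base b => exact act_zr g
  | pair s t => rfl

theorem rel_act (g a : G) (b b' : B L G) :
    Rel D (g * a) (actB D g b) (actB D g b') ↔ Rel D a b b' := by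
  rcases b with c | x
  · rcases b' with c' | x'
    · simp only [Rel, actB]
      rw [← ca_mul, ← ca_mul, mul_inv_rev, inv_mul_cancel_right]
    · exact Iff.rfl
  · rcases b' with c' | x'
    · exact Iff.rfl
    · simp only [Rel, actB]
      have h : ∀ y : G, (g * a)⁻¹ * (g * y) = a⁻¹ * y := by intro y; group
      rw [h, h]

theorem mark_act' (g : G) (t : Tr L G) (h : Mark D t) : Mark D (actT D g t) := by
  obtain ⟨a, b, b', rfl, h1⟩ := h
  exact ⟨g * a, actB D g b, actB D g b', rfl, (rel_act g a b b').2 h1⟩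

theorem mark_act (g : G) (t : Tr L G) : Mark D (actT D g t) ↔ Mark D t := by
  constructor
  · intro h
    have h1 := mark_act' g⁻¹ _ h
    rwa [← actT_mul, inv_mul_cancel, actT_one] at h1
  · exact mark_act' g t

theorem act_ff (g : G) (t : Al5 D) : act g (ff t) = ff (act g t) := by
  unfold ff
  have h : Mark D (act g t).t ↔ Mark D t.t := mark_act g t.t
  by_cases h1 : Mark D t.t
  · rw [if_pos h1, if_pos (h.2 h1), act_zr]
  · rw [if_neg h1, if_neg (fun h2 => h1 (h.1 h2))]

variable (D) in
/-- The action as a homomorphism. -/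
def hom : G →* Equiv.Perm (Al5 D) where
  toFun g := ⟨act g, act g⁻¹, fun t => Al5.ext' (by
    change actT D g⁻¹ (actT D g t.t) = t.t
    rw [← actT_mul, inv_mul_cancel, actT_one]), fun t => Al5.ext' (by
    change actT D g (actT D g⁻¹ t.t) = t.t
    rw [← actT_mul, mul_inv_cancel, actT_one])⟩
  map_one' := by
    ext t
    exact Al5.ext' (actT_one t.t)
  map_mul' g h := by
    ext t
    exact Al5.ext' (actT_mul g h t.t)

theorem hom_mem (g : G) : hom D g ∈ Aut sig5 (Al5 D) := by
  intro f x
  cases f with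
  | zero => exact act_zr g
  | lam => exact act_lm g _
  | p => exact act_pp g _
  | r => exact act_rr g _
  | f => exact act_ff g _

/-- The properties of automorphisms. -/
theorem aut_rules {σ : Equiv.Perm (Al5 D)} (h : σ ∈ Aut sig5 (Al5 D)) :
    σ zr = zr ∧ (∀ t, σ (lm t) = lm (σ t)) ∧ (∀ t, σ (pp t) = pp (σ t)) ∧
      (∀ t, σ (rr t) = rr (σ t)) ∧ (∀ t, σ (ff t) = ff (σ t)) :=
  ⟨h Sym5.zero (fun i => i.elim0), fun t => h Sym5.lam (fun _ => t),
    fun t => h Sym5.p (fun _ => t), fun t => h Sym5.r (fun _ => t), fun t => h Sym5.f (fun _ => t)⟩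

theorem leaf_iff (t : Al5 D) : pp t = t ↔ ∃ b, t = bs b := by
  constructor
  · intro h
    rcases t with ⟨t, ht⟩
    cases t with
    | base b => exact ⟨b, rfl⟩
    | pair s t =>
      exfalso
      have h1 : s = Tr.pair s t := congrArg Al5.t h
      have h2 := congrArg sizeOf h1
      simp only [Tr.pair.sizeOf_spec] at h2
      omega
  · rintro ⟨b, rfl⟩
    rfl

theorem pr_ne (s t : Al5 D) (h : s ≠ t) : s ≠ pr s t h := by
  intro h1
  have h2 : s.t = Tr.pair s.t t.t := congrArg Al5.t h1
  have h3 := congrArg sizeOf h2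
  simp only [Tr.pair.sizeOf_spec] at h3
  omega

theorem aut_pr {σ : Equiv.Perm (Al5 D)} (h : σ ∈ Aut sig5 (Al5 D))
    (s t : Al5 D) (hst : s ≠ t) : σ (pr s t hst) = pr (σ s) (σ t) (σ.injective.ne hst) := by
  obtain ⟨-, -, hp, hr, -⟩ := aut_rules h
  have h1 := hp (pr s t hst)
  have h2 := hr (pr s t hst)
  rw [pp_pr] at h1
  rw [rr_pr] at h2
  have h3 : pp (σ (pr s t hst)) ≠ σ (pr s t hst) := by
    rw [← h1]
    exact σ.injective.ne (pr_ne s t hst)
  generalize σ (pr s t hst) = w at h1 h2 h3
  rcases w with ⟨w, hw⟩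
  cases w with
  | base b => exact absurd rfl h3
  | pair a b =>
    apply Al5.ext'
    change Tr.pair a b = Tr.pair (σ s).t (σ t).t
    rw [h1, h2]
    rfl

theorem bs_inj {b b' : B L G} (h : (bs b : Al5 D) = bs b') : b = b' := by
  have h1 : Tr.base b = Tr.base b' := congrArg Al5.t h
  cases h1
  rfl

theorem lm_bs_inl (c : Cpt L) : lm (bs (.inl c) : Al5 D) = bs (.inl c) := rfl

theorem lm_bs_inr (x : G) : lm (bs (.inr x) : Al5 D) ≠ bs (.inr x) := by
  intro h
  exact absurd (bs_inj h) (by simp)

/-- automorphisms map leaves to leaves -/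
theorem aut_leaf {σ : Equiv.Perm (Al5 D)} (h : σ ∈ Aut sig5 (Al5 D)) (b : B L G) :
    ∃ b', σ (bs b) = bs b' := by
  rw [← leaf_iff, ← (aut_rules h).2.2.1, pp_bs]

theorem aut_inl {σ : Equiv.Perm (Al5 D)} (h : σ ∈ Aut sig5 (Al5 D)) (c : Cpt L) :
    ∃ c', σ (bs (.inl c)) = bs (.inl c') := by
  obtain ⟨b, hb⟩ := aut_leaf h (.inl c)
  rcases b with c' | x
  · exact ⟨c', hb⟩
  · exfalso
    apply lm_bs_inr (D := D) x
    rw [← hb, ← (aut_rules h).2.1, lm_bs_inl]

theorem aut_inr {σ : Equiv.Perm (Al5 D)} (h : σ ∈ Aut sig5 (Al5 D)) (x : G) :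
    ∃ y, σ (bs (.inr x)) = bs (.inr y) := by
  obtain ⟨b, hb⟩ := aut_leaf h (.inr x)
  rcases b with c' | y
  · exfalso
    apply lm_bs_inr (D := D) x
    apply σ.injective
    rw [(aut_rules h).2.1, hb, lm_bs_inl]
  · exact ⟨y, hb⟩

/-- An order preserving family of maps on a well-ordered set does not decrease elements. -/
theorem wo_lemma {α : Type u} (R : α → α → Prop)
    (hR : ∀ a a', R a a' → ∀ b b', R b b' → WellOrderingRel a b → WellOrderingRel a' b')
    (hex : ∀ a, ∃ a', R a a') : ∀ a a', R a a' → ¬ WellOrderingRel a' a := by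
  intro a
  induction a using (WellOrderingRel.isWellOrder (α := α)).toIsWellFounded.wf.induction with
  | _ a ih =>
    intro a' h h1
    obtain ⟨a'', h2⟩ := hex a'
    exact ih a' h1 a'' h2 (hR a' a'' h2 a a' h h1)

theorem wo_fixed {α : Type u} (R R' : α → α → Prop)
    (hR : ∀ a a', R a a' → ∀ b b', R b b' → WellOrderingRel a b → WellOrderingRel a' b')
    (hex : ∀ a, ∃ a', R a a')
    (hR' : ∀ a a', R' a a' → ∀ b b', R' b b' → WellOrderingRel a b → WellOrderingRel a' b')
    (hex' : ∀ a, ∃ a', R' a a') (hinv : ∀ a a', R a a' → R' a' a) :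
    ∀ a a', R a a' → a' = a := by
  intro a a' h
  have h1 := wo_lemma R hR hex a a' h
  have h2 := wo_lemma R' hR' hex' a' a (hinv a a' h)
  rcases trichotomous_of WellOrderingRel a' a with h3 | h3 | h3
  · exact absurd h3 h1
  · exact h3
  · exact absurd h3 h2

theorem pr_ne_zr (s t : Al5 D) (h : s ≠ t) : pr s t h ≠ zr := by
  intro h1
  have h2 : Tr.pair s.t t.t = Tr.base (Sum.inl ⟨⊥, compact_bot⟩) := congrArg Al5.t h1
  cases h2

theorem bs_ne_pr (b : B L G) (s t : Al5 D) (h : s ≠ t) : bs b ≠ pr s t h := by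
  intro h1
  have h2 : Tr.base b = Tr.pair s.t t.t := congrArg Al5.t h1
  cases h2

/-- The operation `f` recognises the relation. -/
theorem ff_iff (a : G) (b b' : B L G) (h : (bs b : Al5 D) ≠ bs b') :
    ff (pr (bs (.inr a)) (pr (bs b) (bs b') h) (bs_ne_pr _ _ _ h)) = zr ↔ Rel D a b b' := by
  have h0 : Mark D (pr (bs (.inr a)) (pr (bs b) (bs b') h) (bs_ne_pr _ _ _ h)).t ↔
      Rel D a b b' := by
    constructor
    · rintro ⟨a1, b1, b1', h1, h2⟩
      have h3 : Tr.pair (.base (.inr a)) (.pair (.base b) (.base b')) =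
        Tr.pair (.base (.inr a1)) (.pair (.base b1) (.base b1')) := h1
      cases h3
      exact h2
    · intro h1
      exact ⟨a, b, b', rfl, h1⟩
  unfold ff
  by_cases h1 : Rel D a b b'
  · rw [if_pos (h0.2 h1)]
    exact ⟨fun _ => h1, fun _ => rfl⟩
  · rw [if_neg (fun h2 => h1 (h0.1 h2))]
    exact ⟨fun h2 => absurd h2 (pr_ne_zr _ _ _), fun h2 => absurd h2 h1⟩

theorem aut_rel {σ : Equiv.Perm (Al5 D)} (h : σ ∈ Aut sig5 (Al5 D)) {a a' : G}
    {b b' d d' : B L G} (ha : σ (bs (.inr a)) = bs (.inr a')) (hb : σ (bs b) = bs d)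
    (hb' : σ (bs b') = bs d') (hne : b ≠ b') (hr : Rel D a b b') : Rel D a' d d' := by
  have h1 : (bs b : Al5 D) ≠ bs b' := fun e => hne (bs_inj e)
  have h1' : (bs d : Al5 D) ≠ bs d' := by
    rw [← hb, ← hb']
    exact σ.injective.ne h1
  have h2 := (ff_iff a b b' h1).2 hr
  have h3 := (aut_rules h).2.2.2.2 (pr (bs (.inr a)) (pr (bs b) (bs b') h1) (bs_ne_pr _ _ _ h1))
  rw [h2, (aut_rules h).1] at h3
  rw [← ff_iff a' d d' h1', h3]
  congr 1
  apply Al5.ext'
  rw [aut_pr h]
  change Tr.pair (bs (.inr a') : Al5 D).t (Tr.pair (bs d : Al5 D).t (bs d' : Al5 D).t) =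
    Tr.pair (σ (bs (.inr a))).t (σ (pr (bs b) (bs b') h1)).t
  rw [ha, aut_pr h]
  change _ = Tr.pair _ (Tr.pair (σ (bs b)).t (σ (bs b')).t)
  rw [hb, hb']

theorem pres_inl {σ : Equiv.Perm (Al5 D)} (h : σ ∈ Aut sig5 (Al5 D))
    (h1 : σ (bs (.inr 1)) = bs (.inr 1)) (a a' : Cpt L)
    (ha : σ (bs (.inl a)) = bs (.inl a')) (b b' : Cpt L) (hb : σ (bs (.inl b)) = bs (.inl b'))
    (hab : WellOrderingRel a b) : WellOrderingRel a' b' := by
  have hne : (Sum.inl a : B L G) ≠ .inl b := by
    intro e
    rw [Sum.inl_injective e] at hab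
    exact irrefl_of WellOrderingRel b hab
  have h2 := aut_rel h h1 ha hb hne (by
    simp only [Rel, inv_one, ca_one]
    exact hab)
  simpa only [Rel, inv_one, ca_one] using h2

theorem pres_inr {σ : Equiv.Perm (Al5 D)} (h : σ ∈ Aut sig5 (Al5 D))
    (h1 : σ (bs (.inr 1)) = bs (.inr 1)) (a a' : G)
    (ha : σ (bs (.inr a)) = bs (.inr a')) (b b' : G) (hb : σ (bs (.inr b)) = bs (.inr b'))
    (hab : WellOrderingRel a b) : WellOrderingRel a' b' := by
  have hne : (Sum.inr a : B L G) ≠ .inr b := by
    intro e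
    rw [Sum.inr_injective e] at hab
    exact irrefl_of WellOrderingRel b hab
  have h2 := aut_rel h h1 ha hb hne (by
    simp only [Rel, inv_one, one_mul]
    exact hab)
  simpa only [Rel, inv_one, one_mul] using h2

theorem inv_rel {σ : Equiv.Perm (Al5 D)} {s t : Al5 D} (h : σ s = t) : σ⁻¹ t = s := by
  rw [← h]
  simp

/-- An automorphism that fixes the vertex `1` is trivial. -/
theorem aut_triv {σ : Equiv.Perm (Al5 D)} (h : σ ∈ Aut sig5 (Al5 D))
    (h1 : σ (bs (.inr 1)) = bs (.inr 1)) : σ = 1 := by
  have h' := (Aut sig5 (Al5 D)).inv_mem h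
  have h1' := inv_rel h1
  have hleaf : ∀ b : B L G, σ (bs b) = bs b := by
    intro b
    rcases b with c | a
    · obtain ⟨c', hc⟩ := aut_inl h c
      have := wo_fixed (fun a a' : Cpt L => σ (bs (.inl a)) = bs (.inl a'))
        (fun a a' : Cpt L => σ⁻¹ (bs (.inl a)) = bs (.inl a')) (pres_inl h h1) (aut_inl h)
        (pres_inl h' h1') (aut_inl h') (fun a a' ha => inv_rel ha) c c' hc
      rw [hc, this]
    · obtain ⟨c', hc⟩ := aut_inr h a
      have := wo_fixed (fun a a' : G => σ (bs (.inr a)) = bs (.inr a'))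
        (fun a a' : G => σ⁻¹ (bs (.inr a)) = bs (.inr a')) (pres_inr h h1) (aut_inr h)
        (pres_inr h' h1') (aut_inr h') (fun a a' ha => inv_rel ha) a c' hc
      rw [hc, this]
  ext t
  rcases t with ⟨t, ht⟩
  change σ ⟨t, ht⟩ = ⟨t, ht⟩
  induction t with
  | base b => exact hleaf b
  | pair s t hs' ht' =>
    have hne : (⟨s, ht.1⟩ : Al5 D) ≠ ⟨t, ht.2.1⟩ := fun e => ht.2.2 (congrArg Al5.t e)
    have h1 : (⟨.pair s t, ht⟩ : Al5 D) = pr ⟨s, ht.1⟩ ⟨t, ht.2.1⟩ hne := rfl
    rw [h1, aut_pr h]
    apply Al5.ext'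
    change Tr.pair (σ ⟨s, ht.1⟩).t (σ ⟨t, ht.2.1⟩).t = Tr.pair s t
    rw [hs' ht.1, ht' ht.2.1]

theorem aut_eq {σ : Equiv.Perm (Al5 D)} (h : σ ∈ Aut sig5 (Al5 D)) : ∃ g : G, hom D g = σ := by
  obtain ⟨g, hg⟩ := aut_inr h 1
  refine ⟨g, ?_⟩
  have h1 : (hom D g)⁻¹ * σ ∈ Aut sig5 (Al5 D) :=
    (Aut sig5 (Al5 D)).mul_mem ((Aut sig5 (Al5 D)).inv_mem (hom_mem g)) h
  have h2 : ((hom D g)⁻¹ * σ) (bs (.inr 1)) = bs (.inr 1) := by
    rw [Equiv.Perm.mul_apply, hg]
    apply inv_rel
    change act g (bs (.inr 1) : Al5 D) = bs (.inr g)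
    rw [act_bs]
    simp [actB]
  have h3 := aut_triv h1 h2
  exact inv_mul_eq_one.1 h3

theorem hom_inj : Function.Injective (hom D) := by
  intro g g' h
  have h1 : act g (bs (.inr 1) : Al5 D) = act g' (bs (.inr 1)) :=
    DFunLike.congr_fun h (bs (.inr 1))
  have h2 := Sum.inr_injective (bs_inj h1)
  simpa using h2

variable (D) in
/-- The group is isomorphic to the automorphism group. -/
noncomputable def autIso : G ≃* Aut sig5 (Al5 D) :=
  MulEquiv.ofBijective ((hom D).codRestrict (Aut sig5 (Al5 D)) hom_mem) (by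
    constructor
    · intro g g' h
      exact hom_inj (congrArg Subtype.val h)
    · rintro ⟨σ, hσ⟩
      obtain ⟨g, hg⟩ := aut_eq hσ
      exact ⟨g, Subtype.ext hg⟩)

end Automorphisms

/-! ### The result -/

/-- The identity relation. -/
def idc (A : Type u) [Alg sig5 A] : Cong sig5 A where
  r := fun a b => a = b
  equiv := ⟨fun _ => rfl, fun h => h.symm, fun h h' => h.trans h'⟩
  compat := by
    intro f x y h
    have : x = y := funext h
    rw [this]

/-- The total relation. -/
def top (A : Type u) [Alg sig5 A] : Cong sig5 A where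
  r := fun _ _ => True
  equiv := ⟨fun _ => trivial, fun _ => trivial, fun _ _ => trivial⟩
  compat := fun _ _ _ _ => trivial

theorem subsingleton_of (L : Type u) [CompleteLattice L] [Subsingleton L] (A : Type u)
    [Alg sig5 A] (hA : InQV axioms5 A) (e : L ≃o RelCon axioms5 A) : Subsingleton A := by
  have h1 : InQV axioms5 (idc A).Quo := by
    intro q hq
    rw [Cong.holds_iff]
    exact hA q hq
  have h2 : InQV axioms5 (top A).Quo := by
    intro q hq
    rw [Cong.holds_iff]
    exact fun _ _ => trivial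
  have h3 : (⟨idc A, h1⟩ : RelCon axioms5 A) = ⟨top A, h2⟩ := by
    apply e.symm.injective
    exact Subsingleton.elim _ _
  have h4 : idc A = top A := congrArg Subtype.val h3
  refine ⟨fun a b => ?_⟩
  have h5 : (top A).r a b := trivial
  rw [← h4] at h5
  exact h5

theorem exists_compact (L : Type u) [CompleteLattice L] [IsCompactlyGenerated L] [Nontrivial L] :
    ∃ c : Cpt L, c.1 ≠ ⊥ := by
  by_contra hcon
  push Not at hcon
  obtain ⟨x, hx⟩ := exists_ne (⊥ : L)
  apply hx
  rw [eq_bot_iff, le_iff_compact_le_imp]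
  intro c hc _
  exact (hcon ⟨c, hc⟩).le

/-- **Relative congruence lattices and automorphism groups are independent.** (1) Every algebraic
lattice is representable. (2) Let `L` be an algebraic lattice and let `ρ` be an action of the group
`G` on `L`. There is an algebra `A` in the quasivariety axiomatised by `axioms5` with isomorphisms
`e` of `L` onto `Con_K(A)` and `φ` of `G` onto `Aut(A)` such that `e (ρ g x)` is the image of `e x`
under `φ g`, if and only if `L` has more than one element or `G` has only one. -/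
theorem result :
    (∀ (L : Type u) [CompleteLattice L] [IsCompactlyGenerated L], Representable L) ∧
    ∀ (L : Type u) [CompleteLattice L] [IsCompactlyGenerated L] (G : Type u) [Group G]
      (ρ : G →* (L ≃o L)),
      (∃ (A : Type u) (_ : Nonempty A) (_ : Alg sig5 A) (e : L ≃o RelCon axioms5 A)
        (φ : G ≃* Aut sig5 A), InQV axioms5 A ∧
        ∀ g x a b, (e (ρ g x)).1.r ((φ g).1 a) ((φ g).1 b) ↔ (e x).1.r a b) ↔
      (Nontrivial L ∨ Subsingleton G) := by
  have key : ∀ (L : Type u) [CompleteLattice L] [IsCompactlyGenerated L] (G : Type u) [Group G]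
      (ρ : G →* (L ≃o L)),
      (∃ (A : Type u) (_ : Nonempty A) (_ : Alg sig5 A) (e : L ≃o RelCon axioms5 A)
        (φ : G ≃* Aut sig5 A), InQV axioms5 A ∧
        ∀ g x a b, (e (ρ g x)).1.r ((φ g).1 a) ((φ g).1 b) ↔ (e x).1.r a b) ↔
      (Nontrivial L ∨ Subsingleton G) := by
    intro L _ _ G _ ρ
    constructor
    · rintro ⟨A, -, _, e, g, hA, -⟩
      rcases subsingleton_or_nontrivial L with hL | hL
      · right
        have hs : Subsingleton A := subsingleton_of L A hA e
        refine ⟨fun a b => ?_⟩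
        apply g.injective
        apply Subtype.ext
        ext x
        exact Subsingleton.elim _ _
      · exact Or.inl hL
    · intro h
      rcases subsingleton_or_nontrivial L with hL | hL
      · have hG : Subsingleton G := by
          rcases h with h | h
          · exact absurd h (not_nontrivial_iff_subsingleton.2 hL)
          · exact h
        let alg : Alg sig5 PUnit.{u + 1} := ⟨fun _ _ => PUnit.unit⟩
        have hA : InQV axioms5 PUnit.{u + 1} := fun q hq v hv => rfl
        have h2 : InQV axioms5 (top PUnit.{u + 1}).Quo := by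
          intro q hq
          rw [Cong.holds_iff]
          exact fun _ _ => trivial
        have hsub : ∀ θ ψ : RelCon axioms5 PUnit.{u + 1}, θ = ψ := by
          intro θ ψ
          apply Subtype.ext
          apply Cong.ext
          funext a b
          apply propext
          exact ⟨fun _ => ψ.1.equiv.refl _, fun _ => θ.1.equiv.refl _⟩
        refine ⟨PUnit.{u + 1}, ⟨PUnit.unit⟩, alg, ?_, ?_, hA, ?_⟩
        · exact
            { toFun := fun _ => ⟨top PUnit.{u + 1}, h2⟩
              invFun := fun _ => ⊥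
              left_inv := fun _ => Subsingleton.elim _ _
              right_inv := fun _ => hsub _ _
              map_rel_iff' := by
                intro a b
                have : a = b := Subsingleton.elim _ _
                simp [this] }
        · exact
            { toFun := fun _ => 1
              invFun := fun _ => 1
              left_inv := fun _ => Subsingleton.elim _ _
              right_inv := by
                intro σ
                apply Subtype.ext
                ext x
              map_mul' := by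
                intro a b
                simp }
        · intro g x a b
          exact ⟨fun _ => trivial, fun _ => trivial⟩
      · obtain ⟨c₀, hc₀⟩ := exists_compact L
        let D : Dat L G := ⟨ρ, c₀⟩
        let e : L → RelCon axioms5 (Al5 D) := fun x => ⟨cg x, inQV_cg x⟩
        have he : ∀ x y, e x ≤ e y ↔ x ≤ y := fun x y => (cg_le_iff x y).symm
        have hinj : Function.Injective e := fun x y hxy =>
          le_antisymm ((he x y).1 hxy.le) ((he y x).1 hxy.ge)
        have hsurj : Function.Surjective e := by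
          intro φ
          obtain ⟨x, hx⟩ := exists_cg φ.1 φ.2
          exact ⟨x, Subtype.ext (Cong.ext (funext fun s => funext fun t => propext (hx s t)))⟩
        refine ⟨Al5 D, ⟨zr⟩, inferInstance, ⟨Equiv.ofBijective e ⟨hinj, hsurj⟩,
          fun {x y} => he x y⟩, autIso D, inQV_alg hc₀, ?_⟩
        intro g x a b
        change (act g a = act g b ∨ (lb (act g a) ≤ ρ g x ∧ lb (act g b) ≤ ρ g x)) ↔
          (a = b ∨ (lb a ≤ x ∧ lb b ≤ x))
        rw [lb_act, lb_act]
        have h1 : act g a = act g b ↔ a = b := (hom D g).injective.eq_iff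
        rw [h1]
        change (a = b ∨ (ρ g (lb a) ≤ ρ g x ∧ ρ g (lb b) ≤ ρ g x)) ↔ _
        rw [OrderIso.le_iff_le, OrderIso.le_iff_le]
  refine ⟨?_, key⟩
  intro L _ _
  obtain ⟨A, hne, hAlg, e, -, h1, -⟩ := (key L PUnit.{u + 1} 1).2 (Or.inr inferInstance)
  exact ⟨sig5, inferInstanceAs (Finite Sym5), axioms5, A, hne, hAlg, h1, ⟨e⟩⟩

end Pool.Agent.Results.MP_f5a18c_al.IndependentAutomorphisms
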